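import Pool.Agent.Frz.Comb.ALL
import Pool.Agent.Frz.Ana

/-!
# Uniform attachment with freezing: the random recursive tree has the smallest expected height

Full answer to Q1 of `MP_66bb51_pr`: for every choice sequence `x` in `𝕏_n` the expected height of
`T(x)` is at least the expected height of the random recursive tree `R_n = T((+1)^n)`.
-/

set_option autoImplicit false

namespace Pool.Agent.Results.MP_66bb51_pr.FullAnswer

open Frz.Comb

/-- For every `n ≥ 3` and every `x ∈ 𝕏_n`: `E H(R_n) ≤ E H(T(x))`, where `R_n = T((+1)^n)`. -/
theorem result : ∀ n : ℕ, 3 ≤ n → ∀ x ∈ XX n,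
    expHeight (List.replicate n true) ≤ expHeight x :=
  fun n _ x hx => comb Frz.t_W n x hx

end Pool.Agent.Results.MP_66bb51_pr.FullAnswer
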